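import Pool.Graph.R_seed8.R104.PT6

/-!
# Character sums of the type over the numerical semigroups of a given genus

For every complex number `z ≠ 1` of modulus one the sum of `z ^ t(S)` over the numerical semigroups
of genus `g` is exponentially smaller than their number.
-/

set_option autoImplicit false

namespace Pool.Agent.KS6_67.NS

open Finset Pool.Agent.H502R2 Pool.Agent.R104.PT Filter Topology
open scoped goldenRatio

/-- the character sum over the compositions into ones and twos -/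
noncomputable def aZ (z : ℂ) (n : ℕ) : ℂ := ∑ v ∈ VV n, z ^ (v.count 2)

theorem aZ_rec (z : ℂ) (n : ℕ) : aZ z (n + 2) = aZ z (n + 1) + z * aZ z n := by
  unfold aZ
  rw [VV, sum_union, sum_image, sum_image, mul_sum]
  · congr 1
    apply sum_congr rfl
    intro v _
    rw [List.count_cons]
    simp [pow_succ, mul_comm]
  · intro a _ b _ h
    exact (List.cons.inj h).2
  · intro a _ b _ h
    exact (List.cons.inj h).2
  · rw [disjoint_left]
    intro v hv hv'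
    rw [mem_image] at hv hv'
    obtain ⟨l, _, rfl⟩ := hv
    obtain ⟨l', _, h⟩ := hv'
    have := (List.cons.inj h).1
    omega

theorem norm_one_add_lt {z : ℂ} (h1 : ‖z‖ = 1) (h2 : z ≠ 1) : ‖1 + z‖ < 2 := by
  have hle : ‖1 + z‖ ≤ 2 := by
    calc ‖1 + z‖ ≤ ‖(1 : ℂ)‖ + ‖z‖ := norm_add_le _ _
      _ = 2 := by rw [h1, norm_one]; norm_num
  have hsq : ‖1 + z‖ ^ 2 = 2 + 2 * z.re := by
    have h3 : ‖z‖ ^ 2 = z.re ^ 2 + z.im ^ 2 := by
      rw [← Complex.normSq_eq_norm_sq, Complex.normSq_apply]; ring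
    rw [← Complex.normSq_eq_norm_sq, Complex.normSq_apply]
    simp only [Complex.add_re, Complex.one_re, Complex.add_im, Complex.one_im]
    rw [h1] at h3
    nlinarith
  have hre : z.re < 1 := by
    have h3 : z.re ^ 2 + z.im ^ 2 = 1 := by
      have : ‖z‖ ^ 2 = z.re ^ 2 + z.im ^ 2 := by
        rw [← Complex.normSq_eq_norm_sq, Complex.normSq_apply]; ring
      rw [← this, h1]; norm_num
    by_contra hge
    push Not at hge
    have h4 : z.im = 0 := by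
      have : z.im ^ 2 ≤ 0 := by nlinarith
      exact pow_eq_zero_iff (two_ne_zero) |>.1 (le_antisymm this (sq_nonneg _))
    have h5 : z.re = 1 := by
      rw [h4] at h3
      nlinarith
    exact h2 (Complex.ext h5 h4)
  by_contra hge
  push Not at hge
  nlinarith

theorem exists_rate {z : ℂ} (h1 : ‖z‖ = 1) (h2 : z ≠ 1) :
    ∃ ρ : ℝ, 1 < ρ ∧ ρ < φ ∧ ∀ n, ‖aZ z n‖ ≤ 2 * ρ ^ n := by
  have hδ := norm_one_add_lt h1 h2
  set δ := ‖1 + z‖ with hδd
  have hδ0 : 0 ≤ δ := norm_nonneg _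
  have hφ := Real.goldenRatio_sq
  have hφ1 := Real.one_lt_goldenRatio
  have hf : (0 : ℝ) < φ ^ 3 - δ * φ - 1 := by
    have e : φ ^ 3 = 2 * φ + 1 := by
      calc φ ^ 3 = φ * φ ^ 2 := by ring
        _ = φ * (φ + 1) := by rw [hφ]
        _ = φ ^ 2 + φ := by ring
        _ = 2 * φ + 1 := by rw [hφ]; ring
    rw [e]; nlinarith
  have hcont : ContinuousAt (fun x : ℝ => x ^ 3 - δ * x - 1) φ := by fun_prop
  have hev : ∀ᶠ x in 𝓝[<] φ, 0 < x ^ 3 - δ * x - 1 :=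
    (hcont.eventually (lt_mem_nhds hf)).filter_mono nhdsWithin_le_nhds
  have hev2 : ∀ᶠ x in 𝓝[<] φ, x ∈ Set.Ioo 1 φ := Ioo_mem_nhdsLT hφ1
  obtain ⟨ρ, hρ1, hρ2⟩ := (hev.and hev2).exists
  refine ⟨ρ, hρ2.1, hρ2.2, ?_⟩
  have hρ := hρ2.1
  have h0 : aZ z 0 = 1 := by simp [aZ, VV]
  have h1' : aZ z 1 = 1 := by simp [aZ, VV]
  intro n
  induction n using Nat.strong_induction_on with
  | _ n ih =>
    match n with
    | 0 => rw [h0]; simp
    | 1 => rw [h1', norm_one]; linarith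
    | 2 =>
      have e := aZ_rec z 0
      simp only [zero_add] at e
      rw [e, h0, h1', mul_one]
      nlinarith
    | n + 3 =>
      have e1 := aZ_rec z n
      have e2 := aZ_rec z (n + 1)
      have e3 : n + 1 + 2 = n + 3 := by ring
      have e4 : n + 1 + 1 = n + 2 := by ring
      rw [e3, e4] at e2
      have e5 : aZ z (n + 3) = (1 + z) * aZ z (n + 1) + z * aZ z n := by
        rw [e2, e1]; ring
      have b1 := ih (n + 1) (by omega)
      have b0 := ih n (by omega)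
      have hρn : 0 < ρ ^ n := pow_pos (by linarith) n
      calc ‖aZ z (n + 3)‖ ≤ ‖(1 + z) * aZ z (n + 1)‖ + ‖z * aZ z n‖ := by
            rw [e5]; exact norm_add_le _ _
        _ = δ * ‖aZ z (n + 1)‖ + ‖aZ z n‖ := by rw [norm_mul, norm_mul, h1, one_mul]
        _ ≤ δ * (2 * ρ ^ (n + 1)) + 2 * ρ ^ n :=
            add_le_add (mul_le_mul_of_nonneg_left b1 hδ0) b0
        _ = 2 * ρ ^ n * (δ * ρ + 1) := by ring
        _ ≤ 2 * ρ ^ n * ρ ^ 3 := by
            apply mul_le_mul_of_nonneg_left _ (by positivity)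
            linarith
        _ = 2 * ρ ^ (n + 3) := by ring

theorem cancelZ {z : ℂ} {ρ : ℝ} (h1 : ‖z‖ = 1) (hρ : 1 < ρ) (ha : ∀ n, ‖aZ z n‖ ≤ 2 * ρ ^ n)
    {L g : ℕ} (hg : 39 * L ≤ g) :
    ‖∑ w ∈ Pset L g, z ^ (ts L w)‖ ≤ 3 ^ (13 * L) * (2 * ρ ^ g) := by
  classical
  have hmaps : ∀ w ∈ Pset L g, (pU L w, pZ L w) ∈ (Pset L g).image (fun w => (pU L w, pZ L w)) :=
    fun w hw => mem_image_of_mem _ hw
  rw [← sum_fiberwise_of_maps_to hmaps]
  refine (norm_sum_le _ _).trans ?_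
  have hone : ∀ p ∈ (Pset L g).image (fun w => (pU L w, pZ L w)),
      ‖∑ w ∈ (Pset L g).filter (fun w => (pU L w, pZ L w) = p), z ^ (ts L w)‖ ≤ 2 * ρ ^ g := by
    intro p hp
    rw [mem_image] at hp
    obtain ⟨w0, hw0, rfl⟩ := hp
    have hlen : 13 * L ≤ w0.length := by
      have := TW_len (mem_Pset.1 hw0).1
      omega
    obtain ⟨hw, hUl, hZl⟩ := parts hlen
    rw [fiber_eq hw0 hlen hg, sum_image]
    · have h1' : ∀ v ∈ VV (g - (pU L w0).sum - (pZ L w0).sum),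
          z ^ (ts L (pU L w0 ++ (v ++ pZ L w0))) =
            z ^ (FF L (pU L w0) (pZ L w0)) * z ^ (v.count 2) := by
        intro v _
        have hpp := parts_of (L := L) (u := pU L w0) (v := v) (z := pZ L w0) hUl hZl
        rw [ts, hpp.1, hpp.2.1, hpp.2.2, pow_add]
      rw [sum_congr rfl h1', ← mul_sum, norm_mul, norm_pow, h1, one_pow, one_mul]
      refine (ha _).trans ?_
      apply mul_le_mul_of_nonneg_left _ (by norm_num)
      exact pow_le_pow_right₀ hρ.le (by omega)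
    · intro a _ b _ hab
      have h2 := List.append_cancel_left hab
      exact List.append_cancel_right h2
  refine (sum_le_sum hone).trans ?_
  rw [sum_const, nsmul_eq_mul]
  apply mul_le_mul_of_nonneg_right _ (by positivity)
  have hsub : (Pset L g).image (fun w => (pU L w, pZ L w)) ⊆ LL (7 * L) ×ˢ LL (6 * L) := by
    intro p hp
    rw [mem_image] at hp
    obtain ⟨w0, hw0, rfl⟩ := hp
    have hTW := (mem_Pset.1 hw0).1
    have hlen : 13 * L ≤ w0.length := by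
      have := TW_len hTW
      omega
    obtain ⟨hw, hUl, hZl⟩ := parts hlen
    rw [mem_product]
    refine ⟨mem_LL hUl fun x hx => hTW.1 x ?_, mem_LL hZl fun x hx => hTW.1 x ?_⟩
    · rw [hw]; simp [hx]
    · rw [hw]; simp [hx]
  have hcard := card_le_card hsub
  rw [card_product] at hcard
  have h2 : (LL (7 * L)).card * (LL (6 * L)).card ≤ 3 ^ (7 * L) * 3 ^ (6 * L) :=
    Nat.mul_le_mul (LL_card _) (LL_card _)
  have h3 : 3 ^ (7 * L) * 3 ^ (6 * L) = 3 ^ (13 * L) := by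
    rw [← pow_add]; congr 1; ring
  have h4 := hcard.trans (h2.trans (le_of_eq h3))
  exact_mod_cast h4

theorem sum_PZ {z : ℂ} {ρ : ℝ} (h1 : ‖z‖ = 1) (hρ : 1 < ρ) (ha : ∀ n, ‖aZ z n‖ ≤ 2 * ρ ^ n)
    {L g : ℕ} (hg : 39 * L ≤ g) :
    ‖∑ w ∈ Pset L g, z ^ (tw w)‖ ≤ 3 ^ (13 * L) * (2 * ρ ^ g) + 2 * (Fail L g).card := by
  classical
  have habs : ∀ n : ℕ, ‖z ^ n‖ = 1 := by
    intro n
    rw [norm_pow, h1, one_pow]
  have e1 : ∑ w ∈ Pset L g, z ^ (tw w) = ∑ w ∈ Pset L g, z ^ (ts L w) +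
      ∑ w ∈ Pset L g, (z ^ (tw w) - z ^ (ts L w)) := by
    rw [← sum_add_distrib]
    apply sum_congr rfl
    intro w _
    ring
  have h2 : ‖∑ w ∈ Pset L g, (z ^ (tw w) - z ^ (ts L w))‖ ≤ 2 * (Fail L g).card := by
    refine (norm_sum_le _ _).trans ?_
    have h3 : ∀ w ∈ Pset L g, ‖z ^ (tw w) - z ^ (ts L w)‖ ≤
        if ¬ NF L w then (2 : ℝ) else 0 := by
      intro w hw
      obtain ⟨hTW, h3⟩ := mem_Pset.1 hw
      by_cases h : NF L w
      · rw [if_neg (not_not.2 h)]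
        have hlen : 13 * L ≤ w.length := by
          have := TW_len hTW
          omega
        obtain ⟨hwe, hUl, hZl⟩ := parts hlen
        have h4 := hTW.1
        have key : tw (pU L w ++ (pM L w ++ pZ L w)) = FF L (pU L w) (pZ L w) + (pM L w).count 2 := by
          apply tw_local hUl hZl
          · rw [← hwe]; exact h4
          · rw [← hwe]; exact h3
          · rw [← hwe]; exact h
        rw [← hwe] at key
        rw [key, ts, sub_self, norm_zero]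
      · rw [if_pos h]
        calc ‖z ^ (tw w) - z ^ (ts L w)‖ ≤ ‖z ^ (tw w)‖ + ‖z ^ (ts L w)‖ := norm_sub_le _ _
          _ = 2 := by rw [habs, habs]; norm_num
    refine (sum_le_sum h3).trans ?_
    rw [Fail, card_filter]
    push_cast
    rw [mul_sum]
    apply le_of_eq
    apply sum_congr rfl
    intro w _
    split_ifs <;> simp
  rw [e1]
  exact (norm_add_le _ _).trans (add_le_add (cancelZ h1 hρ ha hg) h2)

theorem sum_T3Z (z : ℂ) (g : ℕ) : ∑ S ∈ T3 g, z ^ (tk (kz S) (mul S)) =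
    ∑ w ∈ TWf g, z ^ (tw w) := by
  have hinj : Set.InjOn Sw' (TWf g : Set (List ℕ)) := by
    intro a ha b hb hab
    exact TW_inj g (mem_TWf.1 ha) (mem_TWf.1 hb) hab
  have hmaps : Set.MapsTo Sw' (TWf g : Set (List ℕ)) (T3 g : Set (AddSubmonoid ℕ)) := by
    intro w hw
    exact Sw'_mem (mem_TWf.1 hw)
  symm
  apply sum_nbij Sw' hmaps hinj
  · apply surjOn_of_injOn_of_card_le Sw' hmaps hinj
    refine (T3_le g).trans ?_
    rw [TWf, Set.ncard_eq_toFinset_card _ (TW_finite g)]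
  · intro w hw
    rw [Sw'_tk (mem_TWf.1 hw)]

/-- the character sum over the numerical semigroups of genus `g` -/
noncomputable def DZ (z : ℂ) (g : ℕ) : ℂ := ∑ S ∈ SF g, z ^ (PF (S : Set ℕ)).ncard

theorem DZ_le {z : ℂ} {ρ : ℝ} (h1 : ‖z‖ = 1) (hρ : 1 < ρ) (ha : ∀ n, ‖aZ z n‖ ≤ 2 * ρ ^ n)
    {L g : ℕ} (hg : 39 * L ≤ g) : ‖DZ z g‖ ≤ (T4 g).card + (3 ^ (13 * L) * (2 * ρ ^ g) +
      2 * (Fail L g).card + (Tail L g).card) := by
  classical
  have e1 : DZ z g = ∑ S ∈ T4 g, z ^ (PF (S : Set ℕ)).ncard +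
      ∑ S ∈ T3 g, z ^ (PF (S : Set ℕ)).ncard := by
    rw [DZ, T4, T3, sum_filter_add_sum_filter_not]
  have h2 : ∑ S ∈ T3 g, z ^ (PF (S : Set ℕ)).ncard =
      ∑ S ∈ T3 g, z ^ (tk (kz S) (mul S)) := by
    apply sum_congr rfl
    intro S hS
    rw [T3, mem_filter, mem_SF] at hS
    rw [PF_ncard hS.1]
  have habs : ∀ n : ℕ, ‖z ^ n‖ = 1 := by
    intro n
    rw [norm_pow, h1, one_pow]
  have h3 : ‖∑ S ∈ T4 g, z ^ (PF (S : Set ℕ)).ncard‖ ≤ (T4 g).card := by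
    refine (norm_sum_le _ _).trans (le_of_eq ?_)
    rw [sum_congr rfl fun S _ => habs _, sum_const, nsmul_eq_mul, mul_one]
  have h4 : ∑ w ∈ TWf g, z ^ (tw w) = ∑ w ∈ Pset L g, z ^ (tw w) +
      ∑ w ∈ Tail L g, z ^ (tw w) := by
    rw [Pset, Tail, sum_filter_add_sum_filter_not]
  have h5 : ‖∑ w ∈ Tail L g, z ^ (tw w)‖ ≤ (Tail L g).card := by
    refine (norm_sum_le _ _).trans (le_of_eq ?_)
    rw [sum_congr rfl fun S _ => habs _, sum_const, nsmul_eq_mul, mul_one]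
  have h6 := sum_PZ h1 hρ ha hg
  rw [e1, h2, sum_T3Z, h4]
  refine (norm_add_le _ _).trans (add_le_add h3 ?_)
  exact (norm_add_le _ _).trans (add_le_add h6 h5)

/-- `(g + 1)^2 η^⌊g / K⌋` decays exponentially -/
theorem decay' {η : ℝ} (h0 : 0 < η) (h1 : η < 1) {K : ℕ} (hK : 0 < K) :
    ∃ C γ : ℝ, 0 ≤ C ∧ 0 < γ ∧ γ < 1 ∧ ∀ g : ℕ, ((g : ℝ) + 1) ^ 2 * η ^ (g / K) ≤ C * γ ^ g := by
  -- `μ ^ K = η`
  set μ : ℝ := η ^ ((1 : ℝ) / K) with hμ
  have hKr : (0 : ℝ) < K := by exact_mod_cast hK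
  have hμ0 : 0 < μ := Real.rpow_pos_of_pos h0 _
  have hμ1 : μ < 1 := Real.rpow_lt_one h0.le h1 (by positivity)
  have hμK : μ ^ K = η := by
    rw [hμ, ← Real.rpow_natCast, ← Real.rpow_mul h0.le, one_div, inv_mul_cancel₀ hKr.ne',
      Real.rpow_one]
  set γ : ℝ := √μ with hγ
  have hγ0 : 0 < γ := Real.sqrt_pos.2 hμ0
  have hγ2 : γ * γ = μ := Real.mul_self_sqrt hμ0.le
  have hγ1 : γ < 1 := by
    by_contra h
    push Not at h
    nlinarith
  have hk : Tendsto (fun n : ℕ => (n : ℝ) ^ 2 * γ ^ n) atTop (𝓝 0) :=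
    tendsto_pow_const_mul_const_pow_of_lt_one 2 hγ0.le hγ1
  obtain ⟨B, hB⟩ := hk.bddAbove_range
  have hB' : ∀ n : ℕ, (n : ℝ) ^ 2 * γ ^ n ≤ B := fun n => hB ⟨n, rfl⟩
  have hB0 : 0 ≤ B := by have := hB' 0; norm_num at this; exact this
  refine ⟨B / γ / η, γ, by positivity, hγ0, hγ1, fun g => ?_⟩
  have e1 : η ^ (g / K) * η ≤ μ ^ g := by
    rw [← pow_succ, ← hμK, ← pow_mul]
    apply pow_le_pow_of_le_one hμ0.le hμ1.le
    have := Nat.div_add_mod g K
    have := Nat.mod_lt g hK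
    rw [Nat.mul_succ]
    omega
  have e2 : ((g : ℝ) + 1) ^ 2 * γ ^ g * γ ≤ B := by
    have := hB' (g + 1)
    rw [pow_succ γ g] at this
    push_cast at this
    linarith
  have e3 : μ ^ g = γ ^ g * γ ^ g := by rw [← mul_pow, hγ2]
  rw [div_div, div_mul_eq_mul_div, le_div_iff₀ (by positivity)]
  have p1 : 0 < γ ^ g := by positivity
  calc ((g : ℝ) + 1) ^ 2 * η ^ (g / K) * (γ * η) = ((g : ℝ) + 1) ^ 2 * γ * (η ^ (g / K) * η) := by ring
    _ ≤ ((g : ℝ) + 1) ^ 2 * γ * μ ^ g := by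
        apply mul_le_mul_of_nonneg_left e1 (by positivity)
    _ = (((g : ℝ) + 1) ^ 2 * γ ^ g * γ) * γ ^ g := by rw [e3]; ring
    _ ≤ B * γ ^ g := mul_le_mul_of_nonneg_right e2 p1.le

/-- **The character sums are exponentially small.** -/
theorem DZ_bound {z : ℂ} (h1 : ‖z‖ = 1) (h2 : z ≠ 1) :
    ∃ C γ : ℝ, 0 ≤ C ∧ 0 < γ ∧ γ < 1 ∧ ∀ g : ℕ, ‖DZ z g‖ ≤ C * γ ^ g * φ ^ g := by
  obtain ⟨ρ, hρ1, hρφ, ha⟩ := exists_rate h1 h2
  have hφ : (0 : ℝ) < φ := Real.goldenRatio_pos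
  have hρ0 : 0 < ρ := by linarith
  have hr0 : 0 < ρ / φ := div_pos hρ0 hφ
  have hr1 : ρ / φ < 1 := (div_lt_one hφ).2 hρφ
  -- choice of `K`
  obtain ⟨K, hK60, hK⟩ : ∃ K : ℕ, 60 ≤ K ∧ (3 : ℝ) ^ 13 * (ρ / φ) ^ K ≤ 1 / 2 := by
    have ht := (tendsto_pow_atTop_nhds_zero_of_lt_one hr0.le hr1).const_mul ((3 : ℝ) ^ 13)
    rw [mul_zero] at ht
    have hev := ht.eventually (gt_mem_nhds (show (0 : ℝ) < 1 / 2 by norm_num))
    obtain ⟨K, hK1, hK2⟩ := (hev.and (eventually_ge_atTop 60)).exists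
    exact ⟨K, hK2, hK1.le⟩
  obtain ⟨C, γ, hC, hγ0, hγ1, hdec⟩ := decay' (η := 0.98896) (by norm_num) (by norm_num)
    (K := K) (by omega)
  refine ⟨10250 * C, γ, by positivity, hγ0, hγ1, fun g => ?_⟩
  set L := g / K with hL
  have hLK : K * L ≤ g := Nat.mul_div_le g K
  have h60 : 60 * L ≤ g := le_trans (Nat.mul_le_mul_right L hK60) hLK
  have hle := DZ_le h1 hρ1 ha (L := L) (g := g) (by omega)
  have hx := xx_pos
  have hx2 := xx_ub
  have hφg : (0 : ℝ) < φ ^ g := pow_pos hφ _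
  have hxφ : xx * φ = 1 := inv_mul_cancel₀ hφ.ne'
  set σ : ℝ := (0.98896 : ℝ) ^ L with hσ
  have hσ0 : 0 < σ := by positivity
  have hgg : (1 : ℝ) ≤ ((g : ℝ) + 1) ^ 2 := by
    have : (0 : ℝ) ≤ g := Nat.cast_nonneg _
    nlinarith
  have a1 : ((T4 g).card : ℝ) ≤ 2872 * σ * φ ^ g := by
    have h := Pool.Agent.Y460.NS.T4_pow g
    have h' : ((T4 g).card : ℝ) * 5 ^ g ≤ 2872 * 8 ^ g := by exact_mod_cast h
    have h5' : (0 : ℝ) < 5 ^ g := by positivity
    have h6 : ((T4 g).card : ℝ) ≤ 2872 * (8 / 5 : ℝ) ^ g := by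
      rw [div_pow, ← mul_div_assoc, le_div_iff₀ h5']
      exact h'
    have e2 : (8 / 5 : ℝ) ^ g = (8 / 5 * xx) ^ g * φ ^ g := by
      rw [← mul_pow, mul_assoc, hxφ, mul_one]
    have h7 : (8 / 5 * xx) ^ g ≤ (0.98896 : ℝ) ^ g :=
      pow_le_pow_left₀ (by positivity) (by linarith) g
    have h8 : (0.98896 : ℝ) ^ g ≤ σ := pow_le_pow_of_le_one (by norm_num) (by norm_num) (by omega)
    calc ((T4 g).card : ℝ) ≤ 2872 * ((8 / 5 * xx) ^ g * φ ^ g) := by rw [← e2]; exact h6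
      _ ≤ 2872 * (σ * φ ^ g) := by
        apply mul_le_mul_of_nonneg_left _ (by norm_num)
        exact mul_le_mul_of_nonneg_right (h7.trans h8) hφg.le
      _ = _ := by ring
  have hhalf : ((1 : ℝ) / 2) ^ L ≤ σ := pow_le_pow_left₀ (by norm_num) (by norm_num) L
  have a2 : (3 : ℝ) ^ (13 * L) * (2 * ρ ^ g) ≤ 2 * (σ * φ ^ g) := by
    have e1 : ρ ^ g = (ρ / φ) ^ g * φ ^ g := by rw [div_pow]; field_simp
    have e2 : (ρ / φ) ^ g ≤ ((ρ / φ) ^ K) ^ L := by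
      rw [← pow_mul]
      exact pow_le_pow_of_le_one hr0.le hr1.le hLK
    have e3 : (3 : ℝ) ^ (13 * L) * ((ρ / φ) ^ K) ^ L ≤ (1 / 2) ^ L := by
      rw [pow_mul, ← mul_pow]
      exact pow_le_pow_left₀ (by positivity) hK L
    calc (3 : ℝ) ^ (13 * L) * (2 * ρ ^ g) = 2 * ((3 : ℝ) ^ (13 * L) * (ρ / φ) ^ g) * φ ^ g := by
          rw [e1]; ring
      _ ≤ 2 * ((3 : ℝ) ^ (13 * L) * ((ρ / φ) ^ K) ^ L) * φ ^ g := by
          apply mul_le_mul_of_nonneg_right _ hφg.le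
          apply mul_le_mul_of_nonneg_left _ (by norm_num)
          exact mul_le_mul_of_nonneg_left e2 (by positivity)
      _ ≤ 2 * σ * φ ^ g := by
          apply mul_le_mul_of_nonneg_right _ hφg.le
          apply mul_le_mul_of_nonneg_left _ (by norm_num)
          exact e3.trans hhalf
      _ = 2 * (σ * φ ^ g) := by ring
  have a3 : ((Fail L g).card : ℝ) ≤ (g + 1) ^ 2 * σ * φ ^ g := by
    refine (Fail_card h60).trans ?_
    apply mul_le_mul_of_nonneg_right _ hφg.le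
    exact mul_le_mul_of_nonneg_left hhalf (by positivity)
  have a4 := Tail_card L g
  rw [← hσ] at a4
  have hX : 0 < σ * φ ^ g := mul_pos hσ0 hφg
  have a5 : σ * φ ^ g ≤ (g + 1) ^ 2 * (σ * φ ^ g) := by nlinarith
  have hd := hdec g
  rw [← hL, ← hσ] at hd
  calc ‖DZ z g‖ ≤ 2872 * σ * φ ^ g + (2 * (σ * φ ^ g) + 2 * ((g + 1) ^ 2 * σ * φ ^ g) +
        81 * 91 * σ * φ ^ g) := by linarith
    _ = 10245 * (σ * φ ^ g) + 2 * ((g + 1) ^ 2 * (σ * φ ^ g)) := by ring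
    _ ≤ 10250 * ((g + 1) ^ 2 * (σ * φ ^ g)) := by nlinarith
    _ = 10250 * (((g : ℝ) + 1) ^ 2 * σ) * φ ^ g := by ring
    _ ≤ 10250 * (C * γ ^ g) * φ ^ g := by
        apply mul_le_mul_of_nonneg_right _ hφg.le
        exact mul_le_mul_of_nonneg_left hd (by norm_num)
    _ = 10250 * C * γ ^ g * φ ^ g := by ring

end Pool.Agent.KS6_67.NS
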